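import Mathlib

set_option autoImplicit false
set_option linter.all false

/-!
# An ergodic measure which charges an orbit of the centraliser is homogeneous
-/

namespace Pool.Agent.W708.CA

open MeasureTheory Filter Topology Set BoundedContinuousFunction

section core

variable {G X : Type*} [Group G] [TopologicalSpace G] [IsTopologicalGroup G]
  [SecondCountableTopology G] [SigmaCompactSpace G] [T2Space G]
  [TopologicalSpace X] [MulAction G X] [ContinuousSMul G X] [T2Space X]
  [MeasurableSpace X] [BorelSpace X] [HasOuterApproxClosed X]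

/-- the group of the elements which preserve `μ` -/
def Pres (μ : Measure X) : Subgroup G where
  carrier := {g | μ.map (fun x => g • x) = μ}
  one_mem' := by
    show μ.map (fun x => (1 : G) • x) = μ
    simp only [one_smul]
    exact Measure.map_id
  mul_mem' := by
    intro a b ha hb
    show μ.map (fun x => (a * b) • x) = μ
    have ha' : μ.map (fun x => a • x) = μ := ha
    have hb' : μ.map (fun x => b • x) = μ := hb
    have h1 : (fun x : X => (a * b) • x) = (fun x => a • x) ∘ (fun x => b • x) := by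
      funext x
      simp [mul_smul]
    rw [h1, ← Measure.map_map (continuous_const_smul a).measurable
      (continuous_const_smul b).measurable, hb', ha']
  inv_mem' := by
    intro a ha
    show μ.map (fun x => a⁻¹ • x) = μ
    have ha' : μ.map (fun x => a • x) = μ := ha
    have h1 : μ.map (fun x => a⁻¹ • x) = (μ.map (fun x => a • x)).map (fun x => a⁻¹ • x) := by
      rw [ha']
    rw [h1, Measure.map_map (continuous_const_smul a⁻¹).measurable
      (continuous_const_smul a).measurable]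
    have h2 : (fun x : X => a⁻¹ • x) ∘ (fun x => a • x) = id := by
      funext x
      simp
    rw [h2, Measure.map_id]

lemma mem_pres {μ : Measure X} {g : G} : g ∈ Pres μ ↔ μ.map (fun x => g • x) = μ := Iff.rfl

lemma pres_closed (μ : Measure X) [IsFiniteMeasure μ] : IsClosed (Pres (G := G) μ : Set G) := by
  have h : (Pres (G := G) μ : Set G) =
      ⋂ f : X →ᵇ ℝ, {g : G | ∫ x, f (g • x) ∂μ = ∫ x, f x ∂μ} := by
    ext g
    simp only [Set.mem_iInter, Set.mem_setOf_eq]
    constructor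
    · intro hg f
      have hg' : μ.map (fun x => g • x) = μ := hg
      have h1 : ∫ x, f x ∂(μ.map (fun x => g • x)) = ∫ x, f (g • x) ∂μ :=
        integral_map (continuous_const_smul g).measurable.aemeasurable
          f.continuous.aestronglyMeasurable
      rw [← h1, hg']
    · intro hg
      show μ.map (fun x => g • x) = μ
      have : IsFiniteMeasure (μ.map (fun x => g • x)) := by infer_instance
      apply ext_of_forall_integral_eq_of_IsFiniteMeasure
      intro f
      have h1 : ∫ x, f x ∂(μ.map (fun x => g • x)) = ∫ x, f (g • x) ∂μ :=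
        integral_map (continuous_const_smul g).measurable.aemeasurable
          f.continuous.aestronglyMeasurable
      rw [h1]
      exact hg f
  rw [h]
  apply isClosed_iInter
  intro f
  apply isClosed_eq _ continuous_const
  refine MeasureTheory.continuous_of_dominated (F := fun (g : G) (x : X) => f (g • x))
    (bound := fun _ => ‖f‖) ?_ ?_ ?_ ?_
  · intro g
    exact (f.continuous.comp (continuous_const_smul g)).aestronglyMeasurable
  · intro g
    exact Eventually.of_forall (fun x => f.norm_coe_le_norm _)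
  · exact integrable_const _
  · exact Eventually.of_forall (fun x => f.continuous.comp (continuous_id.smul continuous_const))

lemma meas_image {K : Set G} (hK : IsClosed K) (x₀ : X) :
    MeasurableSet ((fun c : G => c • x₀) '' K) := by
  have h1 : IsSigmaCompact K := isSigmaCompact_univ.of_isClosed_subset hK (subset_univ _)
  obtain ⟨L, hL, hLK⟩ := h1
  rw [← hLK, image_iUnion]
  exact MeasurableSet.iUnion (fun n =>
    ((hL n).image (continuous_id.smul continuous_const)).measurableSet)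

theorem core (A : Subgroup G) (hA : ∀ a ∈ A, ∀ b ∈ A, a * b = b * a)
    (μ : Measure X) [IsProbabilityMeasure μ]
    (hinv : ∀ a ∈ A, μ.map (fun x => a • x) = μ)
    (herg : ∀ E : Set X, MeasurableSet E → (∀ a ∈ A, (fun x => a • x) ⁻¹' E = E) →
      μ E = 0 ∨ μ Eᶜ = 0)
    (x₀ : X) (hpos : μ {x | ∃ c : G, (∀ a ∈ A, a * c = c * a) ∧ x = c • x₀} ≠ 0) :
    ∃ x₁ : X, ∀ᵐ x ∂μ, ∃ g : G, μ.map (fun y => g • y) = μ ∧ x = g • x₁ := by
  classical
  set C : Subgroup G := Subgroup.centralizer (A : Set G) with hC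
  have hmemC : ∀ c : G, c ∈ C ↔ ∀ a ∈ A, a * c = c * a := fun c => by
    rw [hC, Subgroup.mem_centralizer_iff]
    rfl
  have hAC : A ≤ C := fun b hb => (hmemC b).2 (fun a ha => hA a ha b hb)
  have hCcl : IsClosed (C : Set G) := Set.isClosed_centralizer _
  set Λ : Subgroup G := C ⊓ MulAction.stabilizer G x₀ with hΛ
  have hΛcl : IsClosed (Λ : Set G) := by
    have h1 : (Λ : Set G) = (C : Set G) ∩ {g : G | g • x₀ = x₀} := by
      ext g
      simp [hΛ, MulAction.mem_stabilizer_iff]
    rw [h1]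
    exact hCcl.inter (isClosed_eq (continuous_id.smul continuous_const) continuous_const)
  set H : Subgroup G := (A ⊔ Λ).topologicalClosure with hH
  have hHcl : IsClosed (H : Set G) := Subgroup.isClosed_topologicalClosure _
  have hHC : H ≤ C := Subgroup.topologicalClosure_minimal _ (sup_le hAC inf_le_left) hCcl
  have hAH : A ≤ H := le_sup_left.trans (Subgroup.le_topologicalClosure _)
  have hΛH : Λ ≤ H := le_sup_right.trans (Subgroup.le_topologicalClosure _)
  -- `H` normalises `Λ`
  have hnorm : ∀ h ∈ H, ∀ l ∈ Λ, h⁻¹ * l * h ∈ Λ := by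
    intro h hh l hl
    have hcl : IsClosed {h : G | h⁻¹ * l * h ∈ Λ} := by
      have : Continuous (fun h : G => h⁻¹ * l * h) := by fun_prop
      exact hΛcl.preimage this
    have hsub : ((A ⊔ Λ : Subgroup G) : Set G) ⊆ {h : G | h⁻¹ * l * h ∈ Λ} := by
      have hN : A ⊔ Λ ≤ Subgroup.normalizer (Λ : Set G) := by
        refine sup_le ?_ Subgroup.le_normalizer
        intro a ha
        show ∀ n, n ∈ (Λ : Set G) ↔ a * n * a⁻¹ ∈ (Λ : Set G)
        intro n
        constructor
        · intro hn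
          have hnC := (hmemC n).1 hn.1 a ha
          have : a * n * a⁻¹ = n := by rw [hnC]; group
          rw [this]; exact hn
        · intro hn
          have hnC := (hmemC _).1 hn.1 a ha
          have h2 : n = a * n * a⁻¹ := by
            have h3 : a⁻¹ * (a * (a * n * a⁻¹)) * a = a⁻¹ * ((a * n * a⁻¹) * a) * a := by rw [hnC]
            have h4 : a⁻¹ * (a * (a * n * a⁻¹)) * a = a * n := by group
            have h5 : a⁻¹ * ((a * n * a⁻¹) * a) * a = n * a := by group
            rw [h4, h5] at h3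
            rw [h3]; group
          rw [h2]; exact hn
      intro g hg
      have hg' : g⁻¹ ∈ Subgroup.normalizer (Λ : Set G) := Subgroup.inv_mem _ (hN hg)
      have h6 : g⁻¹ * l * g⁻¹⁻¹ ∈ (Λ : Set G) := (hg' l).1 hl
      rw [inv_inv] at h6
      exact h6
    have hh' : h ∈ closure ((A ⊔ Λ : Subgroup G) : Set G) := by
      have : h ∈ (H : Set G) := hh
      rwa [hH, Subgroup.topologicalClosure_coe] at this
    exact closure_minimal hsub hcl hh'
  -- the sets `E B`
  let E : Set (G ⧸ H) → Set X := fun B => {x | ∃ c ∈ C, (c : G ⧸ H) ∈ B ∧ x = c • x₀}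
  have hEimg : ∀ B, E B = (fun c : G => c • x₀) '' ((C : Set G) ∩ {c : G | (c : G ⧸ H) ∈ B}) := by
    intro B
    ext x
    constructor
    · rintro ⟨c, hc, hcB, rfl⟩
      exact ⟨c, ⟨hc, hcB⟩, rfl⟩
    · rintro ⟨c, ⟨hc, hcB⟩, rfl⟩
      exact ⟨c, hc, hcB, rfl⟩
  have hEcl : ∀ B : Set (G ⧸ H), IsClosed B → MeasurableSet (E B) := by
    intro B hB
    rw [hEimg]
    exact meas_image (hCcl.inter (hB.preimage continuous_quotient_mk')) x₀
  -- cosets are determined by the point
  have huniq : ∀ c ∈ C, ∀ d ∈ C, c • x₀ = d • x₀ → (c : G ⧸ H) = (d : G ⧸ H) := by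
    intro c hc d hd hcd
    rw [QuotientGroup.eq]
    apply hΛH
    refine ⟨C.mul_mem (C.inv_mem hc) hd, ?_⟩
    show c⁻¹ * d ∈ MulAction.stabilizer G x₀
    rw [MulAction.mem_stabilizer_iff, mul_smul, ← hcd, inv_smul_smul]
  have hEop : ∀ U : Set (G ⧸ H), IsOpen U → MeasurableSet (E U) := by
    intro U hU
    have h1 : E U = E univ \ E Uᶜ := by
      ext x
      constructor
      · rintro ⟨c, hc, hcU, rfl⟩
        refine ⟨⟨c, hc, mem_univ _, rfl⟩, ?_⟩
        rintro ⟨d, hd, hdU, hcd⟩
        rw [huniq c hc d hd hcd] at hcU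
        exact hdU hcU
      · rintro ⟨⟨c, hc, -, rfl⟩, h2⟩
        refine ⟨c, hc, ?_, rfl⟩
        by_contra h3
        exact h2 ⟨c, hc, h3, rfl⟩
    rw [h1]
    exact (hEcl _ isClosed_univ).diff (hEcl _ hU.isClosed_compl)
  have hEinv1 : ∀ B : Set (G ⧸ H), ∀ a ∈ A, ∀ x, x ∈ E B → a • x ∈ E B := by
    rintro B a ha x ⟨c, hc, hcB, rfl⟩
    refine ⟨a * c, C.mul_mem (hAC ha) hc, ?_, by rw [mul_smul]⟩
    have h1 : ((a * c : G) : G ⧸ H) = (c : G ⧸ H) := by
      rw [(hmemC c).1 hc a ha, QuotientGroup.eq]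
      have : (c * a)⁻¹ * c = a⁻¹ := by group
      rw [this]
      exact H.inv_mem (hAH ha)
    rw [h1]; exact hcB
  have hEinv : ∀ B : Set (G ⧸ H), ∀ a ∈ A, (fun x => a • x) ⁻¹' (E B) = E B := by
    intro B a ha
    ext x
    constructor
    · intro hx
      have := hEinv1 B a⁻¹ (A.inv_mem ha) _ hx
      simpa using this
    · intro hx
      exact hEinv1 B a ha x hx
  have hOeq : {x | ∃ c : G, (∀ a ∈ A, a * c = c * a) ∧ x = c • x₀} = E univ := by
    ext x
    constructor
    · rintro ⟨c, hc, rfl⟩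
      exact ⟨c, (hmemC c).2 hc, mem_univ _, rfl⟩
    · rintro ⟨c, hc, -, rfl⟩
      exact ⟨c, (hmemC c).1 hc, rfl⟩
  rw [hOeq] at hpos
  have hOfull : μ (E univ)ᶜ = 0 :=
    (herg _ (hEcl _ isClosed_univ) (hEinv univ)).resolve_left hpos
  have hOae : ∀ᵐ x ∂μ, x ∈ E univ := by
    rw [ae_iff]; exact hOfull
  let f : X → G ⧸ H := fun x => if h : ∃ c ∈ C, x = c • x₀ then ((h.choose : G) : G ⧸ H) else
    ((1 : G) : G ⧸ H)
  have hf : ∀ c ∈ C, f (c • x₀) = (c : G ⧸ H) := by
    intro c hc
    have h : ∃ d ∈ C, c • x₀ = d • x₀ := ⟨c, hc, rfl⟩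
    have h1 : f (c • x₀) = ((h.choose : G) : G ⧸ H) := dif_pos h
    rw [h1]
    exact (huniq c hc _ h.choose_spec.1 h.choose_spec.2).symm
  have : IsClosed (H : Set G) := hHcl
  have : T1Space (G ⧸ H) := QuotientGroup.instT1Space
  obtain ⟨y, hy⟩ := Filter.exists_eventuallyEq_const_of_forall_separating (l := ae μ) (f := f)
    (IsOpen : Set (G ⧸ H) → Prop) (by
      intro U hU
      rcases herg _ (hEop U hU) (hEinv U) with h | h
      · right
        have h1 : ∀ᵐ x ∂μ, x ∉ E U := by
          rw [ae_iff]; simpa using h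
        filter_upwards [h1, hOae] with x hx1 hx2
        intro hx3
        obtain ⟨c, hc, -, rfl⟩ := hx2
        rw [hf c hc] at hx3
        exact hx1 ⟨c, hc, hx3, rfl⟩
      · left
        have h1 : ∀ᵐ x ∂μ, x ∈ E U := by
          rw [ae_iff]; exact h
        filter_upwards [h1] with x hx1
        obtain ⟨c, hc, hcU, rfl⟩ := hx1
        rw [hf c hc]
        exact hcU)
  have hae : ∀ᵐ x ∂μ, ∃ c ∈ C, (c : G ⧸ H) = y ∧ x = c • x₀ := by
    filter_upwards [hy, hOae] with x hx1 hx2
    obtain ⟨c, hc, -, rfl⟩ := hx2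
    rw [hf c hc] at hx1
    exact ⟨c, hc, hx1, rfl⟩
  obtain ⟨x, c₁, hc₁, hc₁y, rfl⟩ := hae.exists
  have hae' : ∀ᵐ x ∂μ, ∃ h ∈ H, x = (c₁ * h) • x₀ := by
    filter_upwards [hae] with x hx
    obtain ⟨c, hc, hcy, rfl⟩ := hx
    refine ⟨c₁⁻¹ * c, ?_, by simp⟩
    rw [← QuotientGroup.eq, hc₁y, hcy]
  -- the stabiliser contains the conjugate of `H`
  have hS : ∀ h ∈ H, c₁ * h * c₁⁻¹ ∈ Pres (G := G) μ := by
    set S' : Subgroup G := (Pres (G := G) μ).comap (MulAut.conj c₁).toMonoidHom with hS'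
    have hmem : ∀ h, h ∈ S' ↔ c₁ * h * c₁⁻¹ ∈ Pres (G := G) μ := fun h => Iff.rfl
    have hS'cl : IsClosed (S' : Set G) := by
      have h1 : (S' : Set G) = (fun h : G => c₁ * h * c₁⁻¹) ⁻¹' (Pres (G := G) μ : Set G) := rfl
      rw [h1]
      exact (pres_closed μ).preimage (by fun_prop)
    have hle : H ≤ S' := by
      refine Subgroup.topologicalClosure_minimal _ (sup_le ?_ ?_) hS'cl
      · intro a ha
        rw [hmem]
        have h1 : c₁ * a * c₁⁻¹ = a := by
          rw [← (hmemC c₁).1 hc₁ a ha]; group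
        rw [h1]
        exact hinv a ha
      · intro l hl
        rw [hmem]
        show μ.map (fun x => (c₁ * l * c₁⁻¹) • x) = μ
        have h1 : (fun x : X => (c₁ * l * c₁⁻¹) • x) =ᵐ[μ] id := by
          filter_upwards [hae'] with x hx
          obtain ⟨h, hh, rfl⟩ := hx
          have h2 : (c₁ * l * c₁⁻¹) * (c₁ * h) = c₁ * h * (h⁻¹ * l * h) := by group
          have h3 : (h⁻¹ * l * h) • x₀ = x₀ := by
            have := (hnorm h hh l hl).2
            exact MulAction.mem_stabilizer_iff.1 this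
          rw [smul_smul, h2, mul_smul, h3]
          rfl
        rw [Measure.map_congr h1, Measure.map_id]
    intro h hh
    exact (hmem h).1 (hle hh)
  refine ⟨c₁ • x₀, ?_⟩
  filter_upwards [hae'] with x hx
  obtain ⟨h, hh, rfl⟩ := hx
  refine ⟨c₁ * h * c₁⁻¹, hS h hh, ?_⟩
  rw [smul_smul]
  congr 1
  group

end core

section quotient

variable {G : Type*} [Group G] [TopologicalSpace G] [IsTopologicalGroup G]
  [SecondCountableTopology G] [LocallyCompactSpace G] [T2Space G]

lemma t2_quot (Γ : Subgroup G) (hΓ : IsClosed (Γ : Set G)) : T2Space (G ⧸ Γ) := by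
  rw [t2_iff_isClosed_diagonal]
  have hq : IsOpenQuotientMap (QuotientGroup.mk : G → G ⧸ Γ) :=
    QuotientGroup.isOpenQuotientMap_mk
  have hqq := hq.prodMap hq
  rw [← hqq.isQuotientMap.isClosed_preimage]
  have h1 : (Prod.map (QuotientGroup.mk : G → G ⧸ Γ) (QuotientGroup.mk : G → G ⧸ Γ)) ⁻¹'
      Set.diagonal (G ⧸ Γ) = (fun p : G × G => p.1⁻¹ * p.2) ⁻¹' (Γ : Set G) := by
    ext ⟨a, b⟩
    simp [QuotientGroup.eq]
  rw [h1]
  exact hΓ.preimage (by fun_prop)

theorem final (Γ : Subgroup G) (hΓ : IsClosed (Γ : Set G))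
    [MeasurableSpace (G ⧸ Γ)] [BorelSpace (G ⧸ Γ)]
    (A : Subgroup G) (hA : ∀ a ∈ A, ∀ b ∈ A, a * b = b * a)
    (μ : Measure (G ⧸ Γ)) [IsProbabilityMeasure μ]
    (hinv : ∀ a ∈ A, μ.map (fun x => a • x) = μ)
    (herg : ∀ E : Set (G ⧸ Γ), MeasurableSet E → (∀ a ∈ A, (fun x => a • x) ⁻¹' E = E) →
      μ E = 0 ∨ μ Eᶜ = 0)
    (x₀ : G ⧸ Γ) (hpos : μ {x | ∃ c : G, (∀ a ∈ A, a * c = c * a) ∧ x = c • x₀} ≠ 0) :
    ∃ x₁ : G ⧸ Γ, ∀ᵐ x ∂μ, ∃ g : G, μ.map (fun y => g • y) = μ ∧ x = g • x₁ := by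
  have hT2 : T2Space (G ⧸ Γ) := t2_quot Γ hΓ
  have hlc : LocallyCompactSpace (G ⧸ Γ) := inferInstance
  have hsc : SecondCountableTopology (G ⧸ Γ) := inferInstance
  have hT3 : T3Space (G ⧸ Γ) := inferInstance
  letI := TopologicalSpace.metrizableSpaceMetric (G ⧸ Γ)
  have hO : HasOuterApproxClosed (G ⧸ Γ) := inferInstance
  have hsig : SigmaCompactSpace G := inferInstance
  exact core A hA μ hinv herg x₀ hpos

end quotient

end Pool.Agent.W708.CA
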